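import Mathlib
import Pool.Agent.Helper35.MS.StF

/-!
# Module FN2 of project MS: energy and area at the final time
-/

set_option autoImplicit false

namespace Helper60.MS

open Helper35.MS Helper35.PI Helper35.PI2 Helper32.CL
open scoped ContDiff Manifold Topology ENNReal BigOperators
open MeasureTheory Set Filter

namespace FN2

/-- a function with derivative `-g`, `g ≥ 0`, on `(0,T)` is antitone there -/
theorem anti {T : ℝ} {f g : ℝ → ℝ} (hf : ∀ t ∈ Ioo 0 T, HasDerivAt f (-g t) t)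
    (hg : ∀ t ∈ Ioo 0 T, 0 ≤ g t) : AntitoneOn f (Ioo 0 T) := by
  apply antitoneOn_of_deriv_nonpos (convex_Ioo 0 T)
  · intro t ht
    exact (hf t ht).continuousAt.continuousWithinAt
  · intro t ht
    rw [interior_Ioo] at ht
    exact (hf t ht).differentiableAt.differentiableWithinAt
  · intro t ht
    rw [interior_Ioo] at ht
    rw [(hf t ht).deriv]
    have := hg t ht
    linarith

/-- mean value theorem -/
theorem mv {T : ℝ} {f g : ℝ → ℝ} (hf : ∀ t ∈ Ioo 0 T, HasDerivAt f (-g t) t)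
    {a b : ℝ} (ha : 0 < a) (hab : a < b) (hb : b < T) :
    ∃ x ∈ Ioo a b, g x * (b - a) = f a - f b := by
  obtain ⟨x, hx, hxe⟩ := exists_hasDerivAt_eq_slope f (fun t => -g t) hab
    (fun t ht => (hf t ⟨by linarith [ht.1], by linarith [ht.2]⟩).continuousAt.continuousWithinAt)
    (fun t ht => hf t ⟨by linarith [ht.1], by linarith [ht.2]⟩)
  refine ⟨x, hx, ?_⟩
  have hne : b - a ≠ 0 := by linarith
  have h2 : -g x * (b - a) = f b - f a := by
    rw [hxe]
    field_simp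
  linarith

/-- times near `T` at which the scale invariant dissipation is small -/
theorem small {T : ℝ} {e d : ℝ → ℝ} (he : ∀ t ∈ Ioo 0 T, HasDerivAt e (-d t) t)
    (hd : ∀ t ∈ Ioo 0 T, 0 ≤ d t) (h0 : ∀ t ∈ Ioo 0 T, 0 ≤ e t) {η ts : ℝ} (hη : 0 < η)
    (hts : ts ∈ Ioo 0 T) : ∃ t ∈ Ioo ts T, (T - t) * d t ≤ η := by
  have hbdd : BddBelow (e '' Ioo 0 T) := by
    refine ⟨0, ?_⟩
    rintro _ ⟨t, ht, rfl⟩
    exact h0 t ht
  have hne : (e '' Ioo 0 T).Nonempty := ⟨_, ⟨ts, hts, rfl⟩⟩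
  obtain ⟨_, ⟨s, hs, rfl⟩, hsL⟩ := exists_lt_of_csInf_lt hne
    (show sInf (e '' Ioo 0 T) < sInf (e '' Ioo 0 T) + η / 2 by linarith)
  have hanti := anti he hd
  set m := max s ts with hm
  have hms : s ≤ m := le_max_left _ _
  have hmt : ts ≤ m := le_max_right _ _
  have hmT : m < T := max_lt hs.2 hts.2
  have hm0 : 0 < m := lt_of_lt_of_le hs.1 hms
  set σ := (T - m) / 4 with hσ
  have hσ0 : 0 < σ := by rw [hσ]; linarith
  have h1 : m < T - 2 * σ := by rw [hσ]; linarith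
  obtain ⟨x, hx, hxe⟩ := mv he (a := T - 2 * σ) (b := T - σ) (by linarith) (by linarith)
    (by linarith)
  have hxT : x ∈ Ioo 0 T := ⟨by linarith [hx.1], by linarith [hx.2]⟩
  refine ⟨x, ⟨by linarith [hx.1], hxT.2⟩, ?_⟩
  have h2 : e (T - 2 * σ) ≤ e s := hanti hs ⟨by linarith, by linarith⟩ (by linarith)
  have h3 : sInf (e '' Ioo 0 T) ≤ e (T - σ) :=
    csInf_le hbdd ⟨T - σ, ⟨by linarith, by linarith⟩, rfl⟩
  have h4 : d x * σ ≤ η / 2 := by
    have : T - σ - (T - 2 * σ) = σ := by ring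
    rw [this] at hxe
    rw [hxe]
    linarith
  have h5 : (T - x) * d x ≤ (2 * σ) * d x :=
    mul_le_mul_of_nonneg_right (by linarith [hx.1]) (hd x hxT)
  nlinarith

/-- the real variable part -/
theorem core {T δ ts : ℝ} {e A W d : ℝ → ℝ} (hδ : 0 < δ) (hts : ts ∈ Ioo 0 T)
    (h0 : ∀ t ∈ Ioo 0 T, 0 ≤ e t) (hA0 : ∀ t ∈ Ioo 0 T, 0 ≤ A t) (hd : ∀ t ∈ Ioo 0 T, 0 ≤ d t)
    (hW : ∀ t ∈ Ioo 0 T, W t - e t = 16 * Real.pi)
    (he : ∀ t ∈ Ioo 0 T, HasDerivAt e (-d t) t) (hA : ∀ t ∈ Ioo 0 T, HasDerivAt A (-W t) t)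
    (key : ∀ t ∈ Ioo ts T, W t ^ 3 * ((T - t) * d t) ≤ 1 / 100000000000 →
      e t ≤ 4000000 * (W t ^ 2 * Real.sqrt ((T - t) * d t) + W t ^ 2 * ((T - t) * d t) / δ) ∧
      A t ≤ 4000000 * (W t ^ 3 * (T - t) + W t ^ 2 * Real.sqrt ((T - t) * d t)
        + W t ^ 2 * ((T - t) * d t) / δ)) :
    (∀ ε : ℝ, 0 < ε → ∃ ts ∈ Ioo 0 T, ∀ t ∈ Ico ts T, e t ≤ ε) ∧
    ∀ t ∈ Ioo 0 T, 16 * Real.pi * (T - t) ≤ A t ∧ A t ≤ W t * (T - t) := by
  have hWpos : ∀ t ∈ Ioo 0 T, 0 < W t := by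
    intro t ht
    have h1 := hW t ht
    have h2 := h0 t ht
    have h3 := Real.pi_pos
    linarith
  have hea := anti he hd
  have hAa := anti hA (fun t ht => (hWpos t ht).le)
  have hWa : ∀ s ∈ Ioo 0 T, ∀ t ∈ Ioo 0 T, s ≤ t → W t ≤ W s := by
    intro s hs t ht hst
    have h1 := hW t ht
    have h2 := hW s hs
    have h3 := hea hs ht hst
    linarith
  -- both quantities are small at times arbitrarily close to `T`
  have main : ∀ ε : ℝ, 0 < ε → ∀ t₀ ∈ Ioo 0 T, ∃ t ∈ Ioo t₀ T, e t ≤ ε ∧ A t ≤ ε := by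
    intro ε hε t₀ ht₀
    set W₁ := W ts with hW₁
    have hW₁0 : 0 < W₁ := hWpos ts hts
    have l1 : Tendsto (fun η : ℝ => W₁ ^ 3 * η) (𝓝[>] 0) (𝓝 0) := by
      have : Continuous (fun η : ℝ => W₁ ^ 3 * η) := by fun_prop
      have h := this.tendsto 0
      simp only [mul_zero] at h
      exact h.mono_left nhdsWithin_le_nhds
    have l2 : Tendsto (fun η : ℝ => 4000000 * (W₁ ^ 2 * Real.sqrt η + W₁ ^ 2 * η / δ)) (𝓝[>] 0)
        (𝓝 0) := by
      have : Continuous (fun η : ℝ => 4000000 * (W₁ ^ 2 * Real.sqrt η + W₁ ^ 2 * η / δ)) := by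
        fun_prop
      have h := this.tendsto 0
      simp only [mul_zero, Real.sqrt_zero, zero_div, add_zero] at h
      exact h.mono_left nhdsWithin_le_nhds
    have e1 : ∀ᶠ η in 𝓝[>] (0 : ℝ), W₁ ^ 3 * η ≤ 1 / 100000000000 :=
      l1.eventually (Iic_mem_nhds (by norm_num))
    have e2 : ∀ᶠ η in 𝓝[>] (0 : ℝ),
        4000000 * (W₁ ^ 2 * Real.sqrt η + W₁ ^ 2 * η / δ) ≤ ε / 2 :=
      l2.eventually (Iic_mem_nhds (by linarith))
    obtain ⟨η, ⟨hη1, hη2⟩, hη0⟩ := ((e1.and e2).and self_mem_nhdsWithin).exists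
    have hη0 : 0 < η := hη0
    -- start time
    set c := 4000000 * W₁ ^ 3 with hc
    have hc0 : 0 < c := by rw [hc]; positivity
    set t₂ := max (max t₀ ts) (T - ε / (2 * c)) with ht₂
    have h20 : t₀ ≤ t₂ := le_trans (le_max_left _ _) (le_max_left _ _)
    have h2s : ts ≤ t₂ := le_trans (le_max_right _ _) (le_max_left _ _)
    have h2e : T - ε / (2 * c) ≤ t₂ := le_max_right _ _
    have hεc : 0 < ε / (2 * c) := by positivity
    have h2T : t₂ < T := max_lt (max_lt ht₀.2 hts.2) (by linarith)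
    obtain ⟨t, ht, htη⟩ := small he hd h0 hη0 (ts := t₂) ⟨by linarith [hts.1], h2T⟩
    have htT : t ∈ Ioo 0 T := ⟨by linarith [hts.1, ht.1], ht.2⟩
    have hWt : W t ≤ W₁ := hWa ts hts t htT (by linarith [ht.1])
    have hWt0 := hWpos t htT
    have hD0 : 0 ≤ (T - t) * d t := mul_nonneg (by linarith [ht.2]) (hd t htT)
    have hp3 : W t ^ 3 ≤ W₁ ^ 3 := pow_le_pow_left₀ hWt0.le hWt 3
    have hp2 : W t ^ 2 ≤ W₁ ^ 2 := pow_le_pow_left₀ hWt0.le hWt 2
    have hk := key t ⟨by linarith [ht.1], ht.2⟩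
      (le_trans (mul_le_mul hp3 htη hD0 (by positivity)) hη1)
    have hs : Real.sqrt ((T - t) * d t) ≤ Real.sqrt η := Real.sqrt_le_sqrt htη
    have hb1 : W t ^ 2 * Real.sqrt ((T - t) * d t) ≤ W₁ ^ 2 * Real.sqrt η :=
      mul_le_mul hp2 hs (Real.sqrt_nonneg _) (by positivity)
    have hb2 : W t ^ 2 * ((T - t) * d t) / δ ≤ W₁ ^ 2 * η / δ := by
      apply div_le_div_of_nonneg_right _ hδ.le
      exact mul_le_mul hp2 htη hD0 (by positivity)
    have hb3 : W t ^ 3 * (T - t) ≤ W₁ ^ 3 * (ε / (2 * c)) := by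
      apply mul_le_mul hp3 _ (by linarith [ht.2]) (by positivity)
      linarith [ht.1]
    have hb4 : 4000000 * (W₁ ^ 3 * (ε / (2 * c))) = ε / 2 := by
      have : 4000000 * (W₁ ^ 3 * (ε / (2 * c))) = c * (ε / (2 * c)) := by rw [hc]; ring
      rw [this]
      field_simp
    refine ⟨t, ⟨by linarith [ht.1], ht.2⟩, ?_, ?_⟩
    · linarith [hk.1]
    · linarith [hk.2]
  refine ⟨?_, ?_⟩
  · intro ε hε
    obtain ⟨t, ht, hte, -⟩ := main ε hε ts hts
    have htT : t ∈ Ioo 0 T := ⟨by linarith [hts.1, ht.1], ht.2⟩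
    refine ⟨t, htT, ?_⟩
    intro s hs
    exact le_trans (hea htT ⟨by linarith [htT.1, hs.1], hs.2⟩ hs.1) hte
  · intro t ht
    constructor
    · have hlim : Tendsto (fun s : ℝ => 16 * Real.pi * (s - t)) (𝓝[<] T)
          (𝓝 (16 * Real.pi * (T - t))) := by
        have : Continuous (fun s : ℝ => 16 * Real.pi * (s - t)) := by fun_prop
        exact (this.tendsto T).mono_left nhdsWithin_le_nhds
      apply le_of_tendsto hlim
      filter_upwards [Ioo_mem_nhdsLT ht.2] with s hs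
      obtain ⟨x, hx, hxe⟩ := mv hA (a := t) (b := s) ht.1 hs.1 hs.2
      have hxT : x ∈ Ioo 0 T := ⟨by linarith [ht.1, hx.1], by linarith [hx.2, hs.2]⟩
      have h1 : 16 * Real.pi ≤ W x := by
        have := hW x hxT
        have := h0 x hxT
        linarith
      have h2 : 16 * Real.pi * (s - t) ≤ W x * (s - t) :=
        mul_le_mul_of_nonneg_right h1 (by linarith [hs.1])
      have h3 := hA0 s ⟨by linarith [ht.1, hs.1], hs.2⟩
      linarith
    · apply le_of_forall_pos_le_add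
      intro ε hε
      obtain ⟨s, hs, -, hsA⟩ := main ε hε t ht
      obtain ⟨x, hx, hxe⟩ := mv hA (a := t) (b := s) ht.1 hs.1 hs.2
      have hxT : x ∈ Ioo 0 T := ⟨by linarith [ht.1, hx.1], by linarith [hx.2, hs.2]⟩
      have h1 : W x ≤ W t := hWa t ht x hxT hx.1.le
      have h2 : W x * (s - t) ≤ W t * (s - t) :=
        mul_le_mul_of_nonneg_right h1 (by linarith [hs.1])
      have h3 : W t * (s - t) ≤ W t * (T - t) :=
        mul_le_mul_of_nonneg_left (by linarith [hs.2]) (hWpos t ht).le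
      linarith

end FN2

theorem hFN2 (hBLW : StBLW) (hFN1 : StFN1) (hENE : StENE) (_hMUJ : StMUJ) : StFN2 := by
  intro N M _ _ _ _ _ _ _ _ T F c χ δ hD hU
  obtain ⟨ts, hts, hb⟩ := hBLW N M T F c χ δ hD hU
  have hE := hENE N M (Ioo 0 T) F c χ hD.su
  refine FN2.core (d := dI F c χ) hD.pi.δ0 hts ?_ ?_ ?_ hD.gb ?_ ?_ ?_
  · intro t ht
    exact integral_nonneg (fun q => hD.pi.th0 q t ht)
  · intro t _
    exact measureReal_nonneg
  · intro t ht
    exact integral_nonneg (fun q => hD.pi.g0 q t ht)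
  · intro t ht
    exact (hE t ht).2.1
  · intro t ht
    exact (hE t ht).2.2.2
  · intro t ht h3
    have htT : t ∈ Ioo 0 T := ⟨by linarith [hts.1, ht.1], ht.2⟩
    exact hFN1 N M (Ioo 0 T) F c χ δ hD.su hD.pi t htT (T - t) (by linarith [ht.2]) (hD.gb t htT)
      (fun k hk hkW => hb t ht k hk hkW) h3

end Helper60.MS
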