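import Mathlib
import Pool.Agent.Helper35.MS.StGB

/-!
Project MS (MP_925021_gt), module GMA: the field `ZFd` on `M_t` may be computed in any chart.
-/

set_option autoImplicit false

namespace Helper60.MS

open Helper35.MS Helper35.PI Helper35.PI2 Helper32.CL
open scoped ContDiff Manifold Topology ENNReal BigOperators
open MeasureTheory Set Filter

namespace GMA

/-- smoothness in the chart of `p`, in space and time -/
theorem loc_smooth2 (hI2 : StI2J) {n N : ℕ} {M : Type} [TopologicalSpace M]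
    [ChartedSpace (EE n) M] [IsManifold (𝓡 n) ∞ M] {S : Set ℝ} {F : M → ℝ → EE N}
    (hF : IsImmJ (n := n) S F) {t : ℝ} (ht : t ∈ S) (p : M) {y : EE n}
    (hy : y ∈ (chartAt (EE n) p).target) :
    ContDiffAt ℝ ∞ (fun z : EE n × ℝ => F ((chartAt (EE n) p).symm z.1) z.2) (y, t) := by
  have h := hI2 n N M S F hF p
  have hmem : (chartAt (EE n) p).target ×ˢ S ∈ 𝓝 (y, t) :=
    prod_mem_nhds ((chartAt (EE n) p).open_target.mem_nhds hy) (hF.op.mem_nhds ht)
  exact h.contDiffAt hmem

/-- smoothness of the flow at a fixed time in the chart of `p` -/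
theorem loc_smooth (hI2 : StI2J) {n N : ℕ} {M : Type} [TopologicalSpace M]
    [ChartedSpace (EE n) M] [IsManifold (𝓡 n) ∞ M] {S : Set ℝ} {F : M → ℝ → EE N}
    (hF : IsImmJ (n := n) S F) {t : ℝ} (ht : t ∈ S)
    (p q : M) (hq : q ∈ (chartAt (EE n) p).source) :
    ContDiffAt ℝ ∞ (loc (n := n) F p t) (chartAt (EE n) p q) := by
  have h2 := loc_smooth2 hI2 hF ht p ((chartAt (EE n) p).map_source hq)
  have h4 : ContDiffAt ℝ ∞ (fun y : EE n => (y, t)) (chartAt (EE n) p q) :=
    contDiffAt_id.prodMk contDiffAt_const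
  exact h2.comp (chartAt (EE n) p q) h4

/-- smoothness of the time derivative in the chart of `p` -/
theorem V_smooth (hI2 : StI2J) {n N : ℕ} {M : Type} [TopologicalSpace M]
    [ChartedSpace (EE n) M] [IsManifold (𝓡 n) ∞ M] {S : Set ℝ} {F : M → ℝ → EE N}
    (hF : IsImmJ (n := n) S F) {t : ℝ} (ht : t ∈ S) {V : M → EE N}
    (hV : V = (fun q => deriv (fun s => F q s) t))
    (p q : M) (hq : q ∈ (chartAt (EE n) p).source) :
    ContDiffAt ℝ ∞ (fun y => V ((chartAt (EE n) p).symm y)) (chartAt (EE n) p q) := by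
  have h2 := loc_smooth2 hI2 hF ht p ((chartAt (EE n) p).map_source hq)
  have h5 : ContDiffAt ℝ ∞
      (fderiv ℝ (fun z : EE n × ℝ => F ((chartAt (EE n) p).symm z.1) z.2))
      (chartAt (EE n) p q, t) := h2.fderiv_right (m := ∞) (by simp)
  have h4 : ContDiffAt ℝ ∞ (fun y : EE n => (y, t)) (chartAt (EE n) p q) :=
    contDiffAt_id.prodMk contDiffAt_const
  have h6 : ContDiffAt ℝ ∞ (fun y : EE n =>
      fderiv ℝ (fun z : EE n × ℝ => F ((chartAt (EE n) p).symm z.1) z.2) (y, t)
        ((0 : EE n), (1 : ℝ))) (chartAt (EE n) p q) :=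
    (h5.comp (chartAt (EE n) p q) h4).clm_apply contDiffAt_const
  refine h6.congr_of_eventuallyEq ?_
  filter_upwards [(chartAt (EE n) p).open_target.mem_nhds ((chartAt (EE n) p).map_source hq)]
    with y hy
  have h7 := loc_smooth2 hI2 hF ht p hy
  have h8 : HasFDerivAt (fun z : EE n × ℝ => F ((chartAt (EE n) p).symm z.1) z.2)
      (fderiv ℝ (fun z : EE n × ℝ => F ((chartAt (EE n) p).symm z.1) z.2) (y, t)) (y, t) :=
    (h7.differentiableAt (by simp)).hasFDerivAt
  have h9 : HasDerivAt (fun s : ℝ => ((y, s) : EE n × ℝ)) ((0 : EE n), (1 : ℝ)) t :=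
    (hasDerivAt_const t y).prodMk (hasDerivAt_id t)
  have h10 := HasFDerivAt.comp_hasDerivAt t (f := fun s : ℝ => ((y, s) : EE n × ℝ)) h8 h9
  rw [hV]
  exact h10.deriv

/-- the field may be computed in any chart -/
theorem ZF_chart (hGIB : StGIB) (hI2 : StI2J) {n N : ℕ} {M : Type} [TopologicalSpace M]
    [ChartedSpace (EE n) M] [IsManifold (𝓡 n) ∞ M] {S : Set ℝ} {F : M → ℝ → EE N}
    (hF : IsImmJ (n := n) S F) {t : ℝ} (ht : t ∈ S) {V : M → EE N}
    (hV : V = (fun q => deriv (fun s => F q s) t)) (p q : M)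
    (hq : q ∈ (chartAt (EE n) p).source) :
    ZFd n F V t q = zfd (loc (n := n) F p t) (fun y => V ((chartAt (EE n) p).symm y))
      (chartAt (EE n) p q) := by
  have hqq : q ∈ (chartAt (EE n) q).source := mem_chart_source (EE n) q
  have hxt : chartAt (EE n) q q ∈ (chartAt (EE n) q).target :=
    (chartAt (EE n) q).map_source hqq
  have hsymm : (chartAt (EE n) q).symm (chartAt (EE n) q q) = q :=
    (chartAt (EE n) q).left_inv hqq
  have hφ : ContDiffAt ℝ ∞ (fun y => chartAt (EE n) p ((chartAt (EE n) q).symm y))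
      (chartAt (EE n) q q) := by
    have h := contDiffWithinAt_ext_coord_change (I := 𝓡 n) (n := ∞) (𝕜 := ℝ) p q
      (y := chartAt (EE n) q q) (by
        rw [ext_coord_change_source]
        refine ⟨chartAt (EE n) q q, ?_, rfl⟩
        rw [OpenPartialHomeomorph.trans_source]
        refine ⟨hxt, ?_⟩
        change (chartAt (EE n) q).symm (chartAt (EE n) q q) ∈ (chartAt (EE n) p).source
        rw [hsymm]
        exact hq)
    rw [ModelWithCorners.range_eq_univ, contDiffWithinAt_univ] at h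
    exact h
  have hφx : chartAt (EE n) p ((chartAt (EE n) q).symm (chartAt (EE n) q q))
      = chartAt (EE n) p q := by rw [hsymm]
  have hev : ∀ᶠ y in 𝓝 (chartAt (EE n) q q),
      (chartAt (EE n) q).symm y ∈ (chartAt (EE n) p).source := by
    have hc : ContinuousAt (chartAt (EE n) q).symm (chartAt (EE n) q q) :=
      (chartAt (EE n) q).continuousAt_symm hxt
    apply hc.eventually_mem
    rw [hsymm]
    exact (chartAt (EE n) p).open_source.mem_nhds hq
  have heq : loc (n := n) F q t =ᶠ[𝓝 (chartAt (EE n) q q)]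
      (fun y => loc (n := n) F p t (chartAt (EE n) p ((chartAt (EE n) q).symm y))) := by
    filter_upwards [hev] with y hy
    unfold loc
    rw [(chartAt (EE n) p).left_inv hy]
  have heV : (fun y => V ((chartAt (EE n) q).symm y)) =ᶠ[𝓝 (chartAt (EE n) q q)]
      (fun y => (fun y' => V ((chartAt (EE n) p).symm y'))
        (chartAt (EE n) p ((chartAt (EE n) q).symm y))) := by
    filter_upwards [hev] with y hy
    rw [(chartAt (EE n) p).left_inv hy]
  have hf : ContDiffAt ℝ ∞ (loc (n := n) F p t)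
      (chartAt (EE n) p ((chartAt (EE n) q).symm (chartAt (EE n) q q))) := by
    rw [hφx]
    exact loc_smooth hI2 hF ht p q hq
  have hfV : ContDiffAt ℝ ∞ (fun y' => V ((chartAt (EE n) p).symm y'))
      (chartAt (EE n) p ((chartAt (EE n) q).symm (chartAt (EE n) q q))) := by
    rw [hφx]
    exact V_smooth hI2 hF ht hV p q hq
  have h := (hGIB n N (loc (n := n) F p t) (loc (n := n) F q t)
    (fun y' => V ((chartAt (EE n) p).symm y')) (fun y => V ((chartAt (EE n) q).symm y))
    (fun y => chartAt (EE n) p ((chartAt (EE n) q).symm y)) (chartAt (EE n) q q)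
    hf hfV hφ heq heV (hF.imm q t ht)).1
  unfold ZFd
  rw [h, hφx]

end GMA

/-- Module GMA. -/
theorem hGMA (hGSM : StGSM) (hGIB : StGIB) (hI2J : StI2J) (_hI3J : StI3J) (hV6aJ : StV6aJ) :
    StGMA := by
  intro n N M _ _ _ J F hF t ht V hV
  have h1le : (1 : WithTop ℕ∞) ≤ ((⊤ : ℕ∞) : WithTop ℕ∞) := by
    have : ((1 : ℕ∞) : WithTop ℕ∞) ≤ ((⊤ : ℕ∞) : WithTop ℕ∞) := WithTop.coe_le_coe.2 le_top
    exact this
  have hsm : ∀ q : M, ContDiffAt ℝ ∞ (loc (n := n) F q t) (chartAt (EE n) q q) := fun q =>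
    GMA.loc_smooth hI2J hF ht q q (mem_chart_source (EE n) q)
  have hsV : ∀ q : M, ContDiffAt ℝ ∞ (fun y => V ((chartAt (EE n) q).symm y))
      (chartAt (EE n) q q) := fun q =>
    GMA.V_smooth hI2J hF ht hV q q (mem_chart_source (EE n) q)
  have part1 : ContMDiff (𝓡 n) 𝓘(ℝ, EE N) 1 (ZFd n F V t) := by
    intro q
    have hq : q ∈ (chartAt (EE n) q).source := mem_chart_source (EE n) q
    have hv := (hGSM n N _ _ _ (hsm q) (hsV q) (hF.imm q t ht)).2.1
    have hv1 : ContMDiffAt 𝓘(ℝ, EE n) 𝓘(ℝ, EE N) 1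
        (zfd (loc (n := n) F q t) (fun y => V ((chartAt (EE n) q).symm y)))
        (chartAt (EE n) q q) := (hv.of_le h1le).contMDiffAt
    have hc : ContMDiffAt (𝓡 n) (𝓡 n) 1 (chartAt (EE n) q) q := by
      have := (contMDiffOn_chart (I := 𝓡 n) (n := ∞) (H := EE n) (x := q)).contMDiffAt
        ((chartAt (EE n) q).open_source.mem_nhds hq)
      exact this.of_le h1le
    have h := ContMDiffAt.comp q (hv1 : ContMDiffAt (𝓡 n) 𝓘(ℝ, EE N) 1
      (zfd (loc (n := n) F q t) (fun y => V ((chartAt (EE n) q).symm y)))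
      (chartAt (EE n) q q)) hc
    refine h.congr_of_eventuallyEq ?_
    filter_upwards [(chartAt (EE n) q).open_source.mem_nhds hq] with q' hq'
    exact GMA.ZF_chart hGIB hI2J hF ht hV q q' hq'
  refine ⟨part1, ?_, ?_⟩
  · intro q
    exact (hGSM n N _ _ _ (hsm q) (hsV q) (hF.imm q t ht)).2.2.2.2
  · intro p q hq
    have hxt : chartAt (EE n) p q ∈ (chartAt (EE n) p).target :=
      (chartAt (EE n) p).map_source hq
    have he : (fun y => ZFd n F V t ((chartAt (EE n) p).symm y)) =ᶠ[𝓝 (chartAt (EE n) p q)]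
        zfd (loc (n := n) F p t) (fun y => V ((chartAt (EE n) p).symm y)) := by
      filter_upwards [(chartAt (EE n) p).open_target.mem_nhds hxt] with y hy
      rw [GMA.ZF_chart hGIB hI2J hF ht hV p _ ((chartAt (EE n) p).map_target hy),
        (chartAt (EE n) p).right_inv hy]
    rw [hV6aJ n N M J F hF t ht (ZFd n F V t) p q (part1 q) hq]
    unfold dvc
    rw [he.fderiv_eq]

end Helper60.MS
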